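import Pool.Agent.helper48.AGR.Main

/-!
MP_def0df_al (exponential conjugacy growth versus polynomial automorphic growth).

There is a finitely generated group whose conjugacy growth function is exponential and whose
automorphic growth function is polynomial (linear), with respect to every finite generating set.
-/

namespace Pool.Agent.Results.MP_def0df_al.ExpConjLinearAut

open Pool.Agent.AGR

theorem result : ∃ (G : Type) (_ : Group G), Group.FG G ∧ ∀ S : Finset G,
    Subgroup.closure (S : Set G) = ⊤ →
      ExpGrowth (conjGrowth (S : Set G)) ∧ PolyGrowth (autGrowth (S : Set G)) ∧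
      GEquiv (fun n => (autGrowth (S : Set G) n : ℝ)) (fun n => (n : ℝ)) := by
  obtain ⟨G, iG, hfg, h⟩ := main
  refine ⟨G, iG, hfg, fun S hS => ?_⟩
  obtain ⟨h1, h2⟩ := h S hS
  refine ⟨h1, ⟨1, h2⟩, ?_⟩
  simpa only [pow_one] using h2

end Pool.Agent.Results.MP_def0df_al.ExpConjLinearAut
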